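import Pool.Agent.L7h93.FO.Sep

set_option autoImplicit false

namespace Pool.Agent.L7h93.FO

open Polynomial Polynomial.Bivariate

variable {K : Type*} [Field K]

/-- Only finitely many fibres are not good. -/
theorem finite_not_good [CharZero K] {P : K[X][Y]} (hP : Irreducible P) (hn : P.natDegree ≠ 0) :
    {s : K | ¬ Good P s}.Finite := by
  classical
  have hprim : P.IsPrimitive := hP.isPrimitive hn
  have hirr : Irreducible (P.map (algebraMap K[X] (FractionRing K[X]))) :=
    (hprim.irreducible_iff_irreducible_map_fraction_map).1 hP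
  haveI : CharZero (FractionRing K[X]) := by
    exact charZero_of_injective_algebraMap (R := K)
      (FaithfulSMul.algebraMap_injective K (FractionRing K[X]))
  have hsep : (P.map (algebraMap K[X] (FractionRing K[X]))).Separable := hirr.separable
  set r := resultant P (derivative P) with hr
  have hr0 : r ≠ 0 := by
    have h1 := resultant_ne_zero _ _ hsep
    rw [derivative_map] at h1
    rw [natDegree_map_eq_of_injective (IsFractionRing.injective K[X] (FractionRing K[X])),
      natDegree_map_eq_of_injective (IsFractionRing.injective K[X] (FractionRing K[X])),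
      resultant_map_map] at h1
    intro h
    apply h1
    rw [← hr, h, map_zero]
  obtain ⟨u, v, -, -, huv⟩ := exists_mul_add_mul_eq_C_resultant P (derivative P)
    (m := P.natDegree) (n := (derivative P).natDegree) le_rfl le_rfl (Or.inl hn)
  have hP0 : P.leadingCoeff ≠ 0 := leadingCoeff_ne_zero.2 hP.ne_zero
  apply ((r * P.leadingCoeff).roots.toFinset.finite_toSet).subset
  intro s hs
  by_contra hcon
  apply hs
  simp only [Finset.mem_coe, Multiset.mem_toFinset] at hcon
  rw [mem_roots (mul_ne_zero hr0 hP0), IsRoot.def, eval_mul, mul_eq_zero, not_or] at hcon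
  obtain ⟨h1, h2⟩ := hcon
  refine ⟨natDegree_map_of_leadingCoeff_ne_zero _ (by simpa using h2), ?_⟩
  apply Separable.squarefree
  have h3 := congrArg (Polynomial.map (evalRingHom s)) huv
  rw [Polynomial.map_add, Polynomial.map_mul, Polynomial.map_mul, map_C] at h3
  rw [Polynomial.Separable, derivative_map]
  refine ⟨C (r.eval s)⁻¹ * u.map (evalRingHom s), C (r.eval s)⁻¹ * v.map (evalRingHom s), ?_⟩
  have h4 : (C (r.eval s)⁻¹ : K[X]) * C (r.eval s) = 1 := by
    rw [← C_mul, inv_mul_cancel₀ h1, C_1]
  have h5 : evalRingHom s r = r.eval s := rfl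
  rw [← hr, h5] at h3
  rw [← h4, ← h3]
  ring

end Pool.Agent.L7h93.FO
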