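import Mathlib

/-!
# Definitions: the curve of a bivariate polynomial, its orbits, and separated multiples
-/

set_option autoImplicit false

namespace Pool.Agent.L7h93.FO

open MvPolynomial

variable {K : Type*} [Field K]

/-- The value at `((x₀, x₁), (y₀, y₁))` of the bihomogenization
`x₀ ^ (deg_x p) * y₀ ^ (deg_y p) * p (x₁ / x₀, y₁ / y₀)` of `p`. -/
noncomputable def bihom (p : MvPolynomial (Fin 2) K) (x y : Fin 2 → K) : K :=
  ∑ e ∈ p.support, p.coeff e * (x 0 ^ (p.degreeOf 0 - e 0) * x 1 ^ e 0) *
    (y 0 ^ (p.degreeOf 1 - e 1) * y 1 ^ e 1)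

/-- The projective line over `K`. -/
abbrev P1 (K : Type*) [Field K] := Projectivization K (Fin 2 → K)

/-- The curve in `ℙ¹ × ℙ¹` defined by the bihomogenization of `p`. -/
def curve (p : MvPolynomial (Fin 2) K) : Set (P1 K × P1 K) :=
  {z | bihom p z.1.rep z.2.rep = 0}

/-- Two points of the curve with the same first or the same second coordinate. -/
def Edge (p : MvPolynomial (Fin 2) K) (z w : P1 K × P1 K) : Prop :=
  z ∈ curve p ∧ w ∈ curve p ∧ (z.1 = w.1 ∨ z.2 = w.2)

/-- The orbit of a point: everything that can be reached from it by finitely many edges. -/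
def orbit (p : MvPolynomial (Fin 2) K) (z : P1 K × P1 K) : Set (P1 K × P1 K) :=
  {w | Relation.ReflTransGen (Edge p) z w}

/-- The set of the finite orbits of points of the curve. -/
def finiteOrbits (p : MvPolynomial (Fin 2) K) : Set (Set (P1 K × P1 K)) :=
  {O | O.Finite ∧ ∃ z ∈ curve p, O = orbit p z}

/-- The field `K(x, y)`. -/
abbrev Kxy (K : Type*) [Field K] := FractionRing (MvPolynomial (Fin 2) K)

/-- `⟨p⟩`: the rational functions in `x, y` whose reduced numerator is divisible by `p` and whose
reduced denominator is not. -/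
def multiples (p : MvPolynomial (Fin 2) K) : Set (Kxy K) :=
  {q | p ∣ IsFractionRing.num (MvPolynomial (Fin 2) K) q ∧
    ¬ p ∣ (IsFractionRing.den (MvPolynomial (Fin 2) K) q : MvPolynomial (Fin 2) K)}

/-- A rational function in one variable as a rational function in `x` (for `i = 0`) or `y`
(for `i = 1`). -/
noncomputable def inVar (i : Fin 2) (f : RatFunc K) : Kxy K :=
  f.eval (algebraMap K (Kxy K)) (algebraMap (MvPolynomial (Fin 2) K) (Kxy K) (X i))

/-- The field of separated multiples of `p`: the pairs `(f, g)` with `f(x) - g(y)` in `⟨p⟩`. -/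
def separatedMultiples (p : MvPolynomial (Fin 2) K) : Set (RatFunc K × RatFunc K) :=
  {fg | inVar 0 fg.1 - inVar 1 fg.2 ∈ multiples p}

/-- The field of separated multiples consists of the constant pairs only. -/
def Trivial (p : MvPolynomial (Fin 2) K) : Prop :=
  ∀ fg ∈ separatedMultiples p, ∃ c : K, fg = (RatFunc.C c, RatFunc.C c)

end Pool.Agent.L7h93.FO
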