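import Pool.Agent.L7h93.FO.TwoGood

set_option autoImplicit false

namespace Pool.Agent.L7h93.FO

open Polynomial Polynomial.Bivariate

variable {K : Type*} [Field K]

/-- the point `[1 : s]` -/
def pt (s : K) : P1 K := Projectivization.mk K ![1, s] (fun h => one_ne_zero (congrFun h 0))

/-- the point at infinity `[0 : 1]` -/
def ptInf (K : Type*) [Field K] : P1 K :=
  Projectivization.mk K ![0, 1] (fun h => one_ne_zero (congrFun h 1))

lemma pt_injective : Function.Injective (pt (K := K)) := by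
  intro s t h
  rw [pt, pt, Projectivization.mk_eq_mk_iff] at h
  obtain ⟨a, ha⟩ := h
  have h0 := congrFun ha 0
  have h1 := congrFun ha 1
  simp [Units.smul_def] at h0 h1
  rw [h0, Units.val_one, one_mul] at h1
  exact h1.symm

lemma exists_pt (z : P1 K) : z = ptInf K ∨ ∃ s, z = pt s := by
  induction z using Projectivization.ind with
  | h v hv =>
  by_cases h0 : v 0 = 0
  · left
    have h1 : v 1 ≠ 0 := by
      intro h1
      apply hv
      ext i
      fin_cases i
      · exact h0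
      · exact h1
    rw [ptInf, Projectivization.mk_eq_mk_iff']
    refine ⟨v 1, ?_⟩
    ext i
    fin_cases i
    · simp [h0]
    · simp
  · right
    refine ⟨v 1 / v 0, ?_⟩
    rw [pt, Projectivization.mk_eq_mk_iff']
    refine ⟨v 0, ?_⟩
    ext i
    fin_cases i
    · simp
    · simp; field_simp

lemma bihom_smul (p : MvPolynomial (Fin 2) K) (x y : Fin 2 → K) (a b : K) :
    bihom p (a • x) (b • y) = a ^ p.degreeOf 0 * b ^ p.degreeOf 1 * bihom p x y := by
  unfold bihom
  rw [Finset.mul_sum]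
  refine Finset.sum_congr rfl fun e he => ?_
  have h0 : e 0 ≤ p.degreeOf 0 := MvPolynomial.monomial_le_degreeOf 0 he
  have h1 : e 1 ≤ p.degreeOf 1 := MvPolynomial.monomial_le_degreeOf 1 he
  have e0 : a ^ p.degreeOf 0 = a ^ (p.degreeOf 0 - e 0) * a ^ e 0 := by
    rw [← pow_add, Nat.sub_add_cancel h0]
  have e1 : b ^ p.degreeOf 1 = b ^ (p.degreeOf 1 - e 1) * b ^ e 1 := by
    rw [← pow_add, Nat.sub_add_cancel h1]
  rw [e0, e1]
  simp only [Pi.smul_apply, smul_eq_mul, mul_pow]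
  ring

lemma bihom_one (p : MvPolynomial (Fin 2) K) (s t : K) :
    bihom p ![1, s] ![1, t] = MvPolynomial.eval ![s, t] p := by
  unfold bihom
  rw [MvPolynomial.eval_eq']
  refine Finset.sum_congr rfl fun e _ => ?_
  simp [Fin.prod_univ_two, mul_assoc]

lemma evalEval_symm (p : MvPolynomial (Fin 2) K) (s t : K) :
    ((equivMvPolynomial K).symm p).evalEval s t = MvPolynomial.eval ![s, t] p := by
  rw [← coe_aevalAeval_eq_evalEval]
  have h1 : (aevalAeval s t : K[X][Y] →ₐ[K] K) =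
      (MvPolynomial.aeval ![s, t]).comp (equivMvPolynomial K).toAlgHom := by
    apply (aevalAevalEquiv K K).symm.injective
    rw [aevalAeval, Equiv.symm_apply_apply]
    simp [aevalAevalEquiv]
  rw [h1, AlgHom.comp_apply]
  have h2 : (equivMvPolynomial K).toAlgHom ((equivMvPolynomial K).symm p) = p :=
    AlgEquiv.apply_symm_apply _ _
  rw [h2, MvPolynomial.aeval_eq_eval]

lemma mem_curve_pt {p : MvPolynomial (Fin 2) K} {s t : K} :
    (pt s, pt t) ∈ curve p ↔ ((equivMvPolynomial K).symm p).evalEval s t = 0 := by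
  obtain ⟨a, ha⟩ := Projectivization.exists_smul_eq_mk_rep K ![1, s]
    (fun h => one_ne_zero (congrFun h 0))
  obtain ⟨b, hb⟩ := Projectivization.exists_smul_eq_mk_rep K ![1, t]
    (fun h => one_ne_zero (congrFun h 0))
  show bihom p (pt s).rep (pt t).rep = 0 ↔ _
  have ha' : (pt s).rep = (a : K) • ![1, s] := ha.symm
  have hb' : (pt t).rep = (b : K) • ![1, t] := hb.symm
  rw [ha', hb', bihom_smul, bihom_one, evalEval_symm]
  simp

section orbit

variable {p : MvPolynomial (Fin 2) K}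

lemma Edge.symm {z w : P1 K × P1 K} (h : Edge p z w) : Edge p w z :=
  ⟨h.2.1, h.1, h.2.2.imp Eq.symm Eq.symm⟩

lemma orbit_subset {z : P1 K × P1 K} (hz : z ∈ curve p) : orbit p z ⊆ curve p := by
  intro w hw
  induction hw with
  | refl => exact hz
  | tail _ h _ => exact h.2.1

lemma orbit_eq {z w : P1 K × P1 K} (h : w ∈ orbit p z) : orbit p w = orbit p z := by
  have hsymm : Relation.ReflTransGen (Edge p) w z := by
    induction h with
    | refl => exact Relation.ReflTransGen.refl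
    | tail _ h ih => exact Relation.ReflTransGen.head h.symm ih
  ext u
  exact ⟨fun hu => Relation.ReflTransGen.trans h hu, fun hu => Relation.ReflTransGen.trans hsymm hu⟩

/-- `O` is an orbit of a point of the curve -/
def IsOrbit (p : MvPolynomial (Fin 2) K) (O : Set (P1 K × P1 K)) : Prop :=
  ∃ z ∈ curve p, O = orbit p z

lemma IsOrbit.closed {O : Set (P1 K × P1 K)} (hO : IsOrbit p O) {w w' : P1 K × P1 K}
    (hw : w ∈ O) (hw' : w' ∈ curve p) (h : w.1 = w'.1 ∨ w.2 = w'.2) : w' ∈ O := by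
  obtain ⟨z, hz, rfl⟩ := hO
  exact Relation.ReflTransGen.tail hw ⟨orbit_subset hz hw, hw', h⟩

lemma IsOrbit.subset {O : Set (P1 K × P1 K)} (hO : IsOrbit p O) : O ⊆ curve p := by
  obtain ⟨z, hz, rfl⟩ := hO
  exact orbit_subset hz

lemma IsOrbit.eq {O O' : Set (P1 K × P1 K)} (hO : IsOrbit p O) (hO' : IsOrbit p O')
    {w w' : P1 K × P1 K} (hw : w ∈ O) (hw' : w' ∈ O') (h : w.1 = w'.1 ∨ w.2 = w'.2) : O = O' := by
  have h1 : w' ∈ O := hO.closed hw (hO'.subset hw') h
  obtain ⟨z, hz, rfl⟩ := hO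
  obtain ⟨z', hz', rfl⟩ := hO'
  rw [← orbit_eq h1, orbit_eq hw']

lemma IsOrbit.nonempty {O : Set (P1 K × P1 K)} (hO : IsOrbit p O) : O.Nonempty := by
  obtain ⟨z, hz, rfl⟩ := hO
  exact ⟨z, Relation.ReflTransGen.refl⟩

/-- the orbit avoids all bad fibres -/
def GoodOrbit (p : MvPolynomial (Fin 2) K) (O : Set (P1 K × P1 K)) : Prop :=
  ∀ w ∈ O, w.1 ∈ pt '' {s | Good ((equivMvPolynomial K).symm p) s} ∧
    w.2 ∈ pt '' {t | Good (swap ((equivMvPolynomial K).symm p)) t}

/-- finite set of first coordinates -/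
noncomputable def coordX {O : Set (P1 K × P1 K)} (hO : O.Finite) : Finset K :=
  ((hO.image Prod.fst).preimage (f := pt) pt_injective.injOn).toFinset

noncomputable def coordY {O : Set (P1 K × P1 K)} (hO : O.Finite) : Finset K :=
  ((hO.image Prod.snd).preimage (f := pt) pt_injective.injOn).toFinset

lemma mem_coordX {O : Set (P1 K × P1 K)} (hO : O.Finite) {s : K} :
    s ∈ coordX hO ↔ ∃ w ∈ O, w.1 = pt s := by
  simp only [coordX, Set.Finite.mem_toFinset, Set.mem_preimage, Set.mem_image]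

lemma mem_coordY {O : Set (P1 K × P1 K)} (hO : O.Finite) {s : K} :
    s ∈ coordY hO ↔ ∃ w ∈ O, w.2 = pt s := by
  simp only [coordY, Set.Finite.mem_toFinset, Set.mem_preimage, Set.mem_image]

lemma goodPair {O : Set (P1 K × P1 K)} (hO : IsOrbit p O) (hfin : O.Finite)
    (hg : GoodOrbit p O) :
    GoodPair ((equivMvPolynomial K).symm p) (coordX hfin) (coordY hfin) ∧
      (coordX hfin).Nonempty := by
  refine ⟨⟨?_, ?_, ?_, ?_⟩, ?_⟩
  · intro s hs
    obtain ⟨w, hw, e⟩ := (mem_coordX hfin).1 hs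
    obtain ⟨s', hs', e'⟩ := (hg w hw).1
    rw [← e'] at e
    rwa [← pt_injective e]
  · intro s hs
    obtain ⟨w, hw, e⟩ := (mem_coordY hfin).1 hs
    obtain ⟨s', hs', e'⟩ := (hg w hw).2
    rw [← e'] at e
    rwa [← pt_injective e]
  · intro s hs t hst
    obtain ⟨w, hw, e⟩ := (mem_coordX hfin).1 hs
    have h1 : (pt s, pt t) ∈ O := hO.closed hw (mem_curve_pt.2 hst) (Or.inl e)
    exact (mem_coordY hfin).2 ⟨_, h1, rfl⟩
  · intro t ht s hst
    obtain ⟨w, hw, e⟩ := (mem_coordY hfin).1 ht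
    have h1 : (pt s, pt t) ∈ O := hO.closed hw (mem_curve_pt.2 hst) (Or.inr e)
    exact (mem_coordX hfin).2 ⟨_, h1, rfl⟩
  · obtain ⟨w, hw⟩ := hO.nonempty
    obtain ⟨s, hs, e⟩ := (hg w hw).1
    exact ⟨s, (mem_coordX hfin).2 ⟨w, hw, e.symm⟩⟩

/-- there is at most one finite orbit avoiding the bad fibres -/
theorem good_unique [IsAlgClosed K] (hp : Irreducible p)
    (hx : p ∉ Algebra.adjoin K {(MvPolynomial.X 0 : MvPolynomial (Fin 2) K)})
    (hy : p ∉ Algebra.adjoin K {(MvPolynomial.X 1 : MvPolynomial (Fin 2) K)})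
    (htriv : Trivial p) {O O' : Set (P1 K × P1 K)} (hO : IsOrbit p O) (hO' : IsOrbit p O')
    (hf : O.Finite) (hf' : O'.Finite) (hg : GoodOrbit p O) (hg' : GoodOrbit p O') : O = O' := by
  by_contra hne
  obtain ⟨h1, h2⟩ := goodPair hO hf hg
  obtain ⟨h1', h2'⟩ := goodPair hO' hf' hg'
  refine not_trivial hp hx hy h1 h1' h2 h2' ?_ htriv
  rw [Finset.disjoint_left]
  intro s hs hs'
  obtain ⟨w, hw, e⟩ := (mem_coordX hf).1 hs
  obtain ⟨w', hw', e'⟩ := (mem_coordX hf').1 hs'
  exact hne (hO.eq hO' hw hw' (Or.inl (e.trans e'.symm)))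

lemma finite_compl_image {S : Set K} (h : Sᶜ.Finite) : ((pt '' S)ᶜ : Set (P1 K)).Finite := by
  apply ((Set.finite_singleton (ptInf K)).union (h.image pt)).subset
  intro z hz
  rcases exists_pt z with h1 | ⟨s, rfl⟩
  · left; exact h1
  · right
    exact ⟨s, fun hs => hz ⟨s, hs, rfl⟩, rfl⟩

/-- **Main theorem.** -/
theorem finite_finiteOrbits [IsAlgClosed K] [CharZero K] (hp : Irreducible p)
    (hx : p ∉ Algebra.adjoin K {(MvPolynomial.X 0 : MvPolynomial (Fin 2) K)})
    (hy : p ∉ Algebra.adjoin K {(MvPolynomial.X 1 : MvPolynomial (Fin 2) K)})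
    (htriv : Trivial p) : (finiteOrbits p).Finite := by
  set P := (equivMvPolynomial K).symm p with hP
  have hPirr : Irreducible P := (MulEquiv.irreducible_iff (equivMvPolynomial K).symm).2 hp
  have hQirr : Irreducible (swap P) :=
    (MulEquiv.irreducible_iff (swap : K[X][Y] ≃ₐ[K] K[X][Y])).2 hPirr
  have hbx : ((pt '' {s | Good P s})ᶜ : Set (P1 K)).Finite :=
    finite_compl_image (finite_not_good hPirr (symm_natDegree hx))
  have hby : ((pt '' {s | Good (swap P) s})ᶜ : Set (P1 K)).Finite :=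
    finite_compl_image (finite_not_good hQirr (swap_symm_natDegree hy))
  -- good ones
  have h1 : {O : Set (P1 K × P1 K) | O ∈ finiteOrbits p ∧ GoodOrbit p O}.Subsingleton := by
    intro O hO O' hO'
    exact good_unique hp hx hy htriv hO.1.2 hO'.1.2 hO.1.1 hO'.1.1 hO.2 hO'.2
  have h2 : (⋃ z ∈ ((pt '' {s | Good P s})ᶜ : Set (P1 K)),
      {O : Set (P1 K × P1 K) | IsOrbit p O ∧ ∃ w ∈ O, w.1 = z}).Finite := by
    apply hbx.biUnion
    intro z _
    apply Set.Subsingleton.finite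
    rintro O ⟨hO, w, hw, e⟩ O' ⟨hO', w', hw', e'⟩
    exact hO.eq hO' hw hw' (Or.inl (e.trans e'.symm))
  have h3 : (⋃ z ∈ ((pt '' {s | Good (swap P) s})ᶜ : Set (P1 K)),
      {O : Set (P1 K × P1 K) | IsOrbit p O ∧ ∃ w ∈ O, w.2 = z}).Finite := by
    apply hby.biUnion
    intro z _
    apply Set.Subsingleton.finite
    rintro O ⟨hO, w, hw, e⟩ O' ⟨hO', w', hw', e'⟩
    exact hO.eq hO' hw hw' (Or.inr (e.trans e'.symm))
  apply ((h1.finite.union h2).union h3).subset
  intro O hO
  by_cases hg : GoodOrbit p O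
  · left; left; exact ⟨hO, hg⟩
  · unfold GoodOrbit at hg
    push Not at hg
    obtain ⟨w, hw, h⟩ := hg
    by_cases hw1 : w.1 ∈ pt '' {s | Good P s}
    · right
      simp only [Set.mem_iUnion]
      exact ⟨w.2, h hw1, hO.2, w, hw, rfl⟩
    · left; right
      simp only [Set.mem_iUnion]
      exact ⟨w.1, hw1, hO.2, w, hw, rfl⟩

end orbit

end Pool.Agent.L7h93.FO
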