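import Pool.Agent.L7h93.FO.Two
import Pool.Agent.L7h93.FO.Defs

set_option autoImplicit false

namespace Pool.Agent.L7h93.FO

open Polynomial Polynomial.Bivariate

section const

variable {K L : Type*} [Field K] [Field L] [Algebra K L]

lemma const_of_forall [IsAlgClosed K] {h : L}
    (hh : ∀ V : ValuationSubring L, (∀ c : K, algebraMap K L c ∈ V) → h ∈ V) :
    ∃ c : K, algebraMap K L c = h := by
  by_contra hcon
  have hne : h ∉ (integralClosure K L).toSubring := by
    intro hmem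
    obtain ⟨c, hc⟩ := (IsAlgClosed.algebraMap_bijective_of_isIntegral (k := K)
      (K := integralClosure K L)).2 ⟨h, hmem⟩
    exact hcon ⟨c, congrArg Subtype.val hc⟩
  obtain ⟨V, hV, hhV⟩ := Subring.exists_le_valuationSubring_of_isIntegrallyClosedIn hne
  exact hhV (hh V fun c => hV (algebraMap_mem (integralClosure K L) c))

end const

/-- A pair of finite sets of coordinates which is closed for `P` and avoids the ramification. -/
structure GoodPair {K : Type*} [Field K] (P : K[X][Y]) (A B : Finset K) : Prop where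
  goodA : ∀ s ∈ A, Good P s
  goodB : ∀ t ∈ B, Good (swap P) t
  closedA : ∀ s ∈ A, ∀ t : K, P.evalEval s t = 0 → t ∈ B
  closedB : ∀ t ∈ B, ∀ s : K, P.evalEval s t = 0 → s ∈ A

section

variable {K : Type*} [Field K] [IsAlgClosed K]

lemma Good.card_roots {P : K[X][Y]} {s : K} (h : Good P s) {B : Finset K}
    (hB : ∀ t : K, P.evalEval s t = 0 → t ∈ B) [∀ t, Decidable (P.evalEval s t = 0)] :
    (B.filter fun t => P.evalEval s t = 0).card = P.natDegree := by
  classical
  set f := P.map (evalRingHom s) with hf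
  have hf0 : f ≠ 0 := h.2.ne_zero
  have hsplit : f.Splits := IsAlgClosed.splits f
  have hnd : f.roots.Nodup := nodup_roots ((PerfectField.separable_iff_squarefree).2 h.2)
  have e : (B.filter fun t => P.evalEval s t = 0) = f.roots.toFinset := by
    ext t
    rw [Finset.mem_filter, Multiset.mem_toFinset, mem_roots hf0, IsRoot.def, hf,
      map_evalRingHom_eval]
    exact ⟨fun h => h.2, fun h => ⟨hB t h, h⟩⟩
  rw [e, Multiset.toFinset_card_of_nodup hnd, ← hsplit.natDegree_eq_card_roots, h.1]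

lemma evalEval_swap (P : K[X][Y]) (s t : K) : (swap P).evalEval t s = P.evalEval s t := by
  have := Bivariate.aevalAeval_swap (A := K) t s P
  rwa [coe_aevalAeval_eq_evalEval, coe_aevalAeval_eq_evalEval] at this

lemma GoodPair.card_eq {P : K[X][Y]} {A B : Finset K} (h : GoodPair P A B) :
    A.card * P.natDegree = B.card * (swap P).natDegree := by
  classical
  have h1 := Finset.sum_card_bipartiteAbove_eq_sum_card_bipartiteBelow
    (s := A) (t := B) (fun s t => P.evalEval s t = 0)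
  have h2 : ∀ s ∈ A, (B.bipartiteAbove (fun s t => P.evalEval s t = 0) s).card = P.natDegree := by
    intro s hs
    exact (h.goodA s hs).card_roots (h.closedA s hs)
  have h3 : ∀ t ∈ B, (A.bipartiteBelow (fun s t => P.evalEval s t = 0) t).card =
      (swap P).natDegree := by
    intro t ht
    rw [← (h.goodB t ht).card_roots (B := A) (fun s hs => h.closedB t ht s
      (by rwa [evalEval_swap] at hs))]
    congr 1
    ext s
    simp only [Finset.bipartiteBelow, Finset.mem_filter, evalEval_swap]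
  rw [Finset.sum_congr rfl h2, Finset.sum_congr rfl h3] at h1
  simpa using h1

variable {L : Type*} [Field L] [Algebra K L]

omit [IsAlgClosed K] in
lemma alg_key {Γ : Type*} [CommGroupWithZero Γ] (a₁ b₁ a₂ b₂ mx my : Γ) (α₁ β₁ α₂ β₂ N₁ N₂ : ℕ)
    (e₁ : a₁ * my ^ β₁ = b₁ * mx ^ α₁) (e₂ : a₂ * my ^ β₂ = b₂ * mx ^ α₂)
    (hb : β₁ * N₂ = β₂ * N₁) (ha : α₁ * N₂ = α₂ * N₁) (hx : mx ≠ 0) (hy : my ≠ 0) :
    a₁ ^ N₂ * b₂ ^ N₁ = a₂ ^ N₁ * b₁ ^ N₂ := by
  have key : (a₁ ^ N₂ * b₂ ^ N₁) * (my ^ (β₁ * N₂) * mx ^ (α₂ * N₁)) =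
      (a₂ ^ N₁ * b₁ ^ N₂) * (my ^ (β₁ * N₂) * mx ^ (α₂ * N₁)) := by
    calc (a₁ ^ N₂ * b₂ ^ N₁) * (my ^ (β₁ * N₂) * mx ^ (α₂ * N₁))
        = (a₁ * my ^ β₁) ^ N₂ * (b₂ * mx ^ α₂) ^ N₁ := by
          rw [mul_pow, mul_pow, pow_mul, pow_mul]
          exact mul_mul_mul_comm _ _ _ _
      _ = (b₁ * mx ^ α₁) ^ N₂ * (a₂ * my ^ β₂) ^ N₁ := by rw [e₁, e₂]
      _ = (a₂ ^ N₁ * b₁ ^ N₂) * (my ^ (β₁ * N₂) * mx ^ (α₂ * N₁)) := by
          rw [mul_pow, mul_pow, ← pow_mul, ← pow_mul, hb, ha, mul_mul_mul_comm,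
            mul_comm (b₁ ^ N₂), mul_comm (mx ^ _)]
  exact mul_right_cancel₀ (mul_ne_zero (pow_ne_zero _ hy) (pow_ne_zero _ hx)) key

/-- Two good pairs give a relation between `x` and `y`. -/
theorem relation {x y : L} {P : K[X][Y]} (h0 : aevalAeval x y P = 0)
    (hx : ∀ f : K[X], f ≠ 0 → aeval x f ≠ 0) (hy : ∀ f : K[X], f ≠ 0 → aeval y f ≠ 0)
    {A₁ B₁ A₂ B₂ : Finset K} (h₁ : GoodPair P A₁ B₁) (h₂ : GoodPair P A₂ B₂) :
    ∃ c : K, aeval x (rootPoly A₁) ^ (A₂.card * P.natDegree) *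
        aeval y (rootPoly B₂) ^ (A₁.card * P.natDegree) =
      algebraMap K L c * (aeval x (rootPoly A₂) ^ (A₁.card * P.natDegree) *
        aeval y (rootPoly B₁) ^ (A₂.card * P.natDegree)) := by
  have hA : ∀ A : Finset K, aeval x (rootPoly A) ≠ 0 := fun A => hx _ (rootPoly_monic A).ne_zero
  have hB : ∀ A : Finset K, aeval y (rootPoly A) ≠ 0 := fun A => hy _ (rootPoly_monic A).ne_zero
  set N₁ := A₁.card * P.natDegree with hN₁
  set N₂ := A₂.card * P.natDegree with hN₂
  set num := aeval x (rootPoly A₁) ^ N₂ * aeval y (rootPoly B₂) ^ N₁ with hnum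
  set den := aeval x (rootPoly A₂) ^ N₁ * aeval y (rootPoly B₁) ^ N₂ with hden
  have hden0 : den ≠ 0 := mul_ne_zero (pow_ne_zero _ (hA _)) (pow_ne_zero _ (hB _))
  obtain ⟨c, hc⟩ : ∃ c : K, algebraMap K L c = num / den := by
    apply const_of_forall
    intro V hV
    rw [← V.valuation_le_one_iff, map_div₀]
    have hd : V.valuation den ≠ 0 := (Valuation.ne_zero_iff _).2 hden0
    suffices V.valuation num = V.valuation den by rw [this, div_self hd]
    have e1 := val_main V hV h0 h₁.goodA h₁.goodB h₁.closedA h₁.closedB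
    have e2 := val_main V hV h0 h₂.goodA h₂.goodB h₂.closedA h₂.closedB
    set μx := max 1 (V.valuation x) with hμx
    set μy := max 1 (V.valuation y) with hμy
    have hμx0 : μx ≠ 0 := (lt_of_lt_of_le zero_lt_one (le_max_left _ _)).ne'
    have hμy0 : μy ≠ 0 := (lt_of_lt_of_le zero_lt_one (le_max_left _ _)).ne'
    have hb1 : B₁.card * N₂ = B₂.card * N₁ := by
      have h1 := h₁.card_eq
      have h2 := h₂.card_eq
      rw [hN₁, hN₂, h1, h2]; ring
    have ha : A₁.card * N₂ = A₂.card * N₁ := by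
      rw [hN₁, hN₂]; ring
    rw [hnum, hden, map_mul, map_pow, map_pow, map_mul, map_pow, map_pow]
    exact alg_key _ _ _ _ _ _ _ _ _ _ _ _ e1 e2 hb1 ha hμx0 hμy0
  refine ⟨c, ?_⟩
  rw [hc, div_mul_cancel₀ _ hden0]

end

end Pool.Agent.L7h93.FO
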