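import Pool.Agent.L7h93.FO.Cofinite

set_option autoImplicit false

namespace Pool.Agent.L7h93.FO

open Polynomial Polynomial.Bivariate

variable {K : Type*} [Field K]

/-- substituting the variable `i` -/
noncomputable def sub (i : Fin 2) : K[X] →ₐ[K] MvPolynomial (Fin 2) K := aeval (MvPolynomial.X i)

lemma sub_injective (i : Fin 2) : Function.Injective (sub (K := K) i) := by
  have h := (MvPolynomial.algebraicIndependent_X (Fin 2) K).transcendental i
  exact transcendental_iff_injective.1 h

lemma inVar_div (i : Fin 2) (a b : K[X]) (hb : b ≠ 0) :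
    inVar i (algebraMap K[X] (RatFunc K) a / algebraMap K[X] (RatFunc K) b) =
      algebraMap _ (Kxy K) (sub i a) / algebraMap _ (Kxy K) (sub i b) := by
  have hev : ∀ q : K[X], eval₂ (algebraMap K (Kxy K))
      (algebraMap (MvPolynomial (Fin 2) K) (Kxy K) (MvPolynomial.X i)) q =
        algebraMap _ (Kxy K) (sub i q) := by
    intro q
    rw [sub, ← aeval_algebraMap_apply, aeval_def]
  have hne : ∀ q : K[X], q ≠ 0 → algebraMap _ (Kxy K) (sub i q) ≠ 0 := by
    intro q hq
    rw [Ne, FaithfulSMul.algebraMap_eq_zero_iff]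
    rwa [map_eq_zero_iff _ (sub_injective i)]
  set f := algebraMap K[X] (RatFunc K) a / algebraMap K[X] (RatFunc K) b with hf
  have hd : f.denom ≠ 0 := RatFunc.denom_ne_zero f
  have hb' : algebraMap K[X] (RatFunc K) b ≠ 0 := by
    rwa [Ne, FaithfulSMul.algebraMap_eq_zero_iff]
  have hd' : algebraMap K[X] (RatFunc K) f.denom ≠ 0 := by
    rwa [Ne, FaithfulSMul.algebraMap_eq_zero_iff]
  have h1 : algebraMap K[X] (RatFunc K) f.num / algebraMap K[X] (RatFunc K) f.denom = f :=
    RatFunc.num_div_denom f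
  have h2 : f.num * b = a * f.denom := by
    apply FaithfulSMul.algebraMap_injective K[X] (RatFunc K)
    rw [map_mul, map_mul]
    rw [hf, div_eq_div_iff hd' hb'] at h1
    exact h1
  unfold inVar RatFunc.eval
  rw [hev, hev, div_eq_div_iff (hne _ hd) (hne _ hb), ← map_mul, ← map_mul, ← map_mul, ← map_mul,
    h2]

/-- membership in the set of multiples of a prime `p` -/
lemma mem_multiples {p N D : MvPolynomial (Fin 2) K} (hp : Prime p) (hN : p ∣ N) (hD : ¬ p ∣ D) :
    algebraMap _ (Kxy K) N / algebraMap _ (Kxy K) D ∈ multiples p := by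
  set q := algebraMap _ (Kxy K) N / algebraMap _ (Kxy K) D with hq
  have hD0 : D ≠ 0 := by rintro rfl; exact hD (dvd_zero p)
  have hD' : algebraMap _ (Kxy K) D ≠ 0 := by
    rwa [Ne, FaithfulSMul.algebraMap_eq_zero_iff]
  have hd0 : algebraMap _ (Kxy K)
      (IsFractionRing.den (MvPolynomial (Fin 2) K) q : MvPolynomial (Fin 2) K) ≠ 0 := by
    rw [Ne, FaithfulSMul.algebraMap_eq_zero_iff]
    exact nonZeroDivisors.coe_ne_zero _
  have h1 := IsFractionRing.mk'_num_den' (MvPolynomial (Fin 2) K) q
  have h2 : IsFractionRing.num (MvPolynomial (Fin 2) K) q * D =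
      N * (IsFractionRing.den (MvPolynomial (Fin 2) K) q : MvPolynomial (Fin 2) K) := by
    apply FaithfulSMul.algebraMap_injective (MvPolynomial (Fin 2) K) (Kxy K)
    rw [map_mul, map_mul]
    rw [div_eq_iff hd0] at h1
    rw [h1, hq]
    field_simp
  have h3 : p ∣ IsFractionRing.num (MvPolynomial (Fin 2) K) q := by
    have h4 : p ∣ IsFractionRing.num (MvPolynomial (Fin 2) K) q * D := by
      rw [h2]; exact hN.mul_right _
    exact (hp.dvd_or_dvd h4).resolve_right hD
  refine ⟨h3, fun h4 => hp.not_unit ?_⟩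
  exact IsFractionRing.num_den_reduced (MvPolynomial (Fin 2) K) q h3 h4

variable {p : MvPolynomial (Fin 2) K}

lemma symm_natDegree (hx : p ∉ Algebra.adjoin K {(MvPolynomial.X 0 : MvPolynomial (Fin 2) K)}) :
    ((equivMvPolynomial K).symm p).natDegree ≠ 0 := by
  intro h
  apply hx
  obtain ⟨f, hf⟩ := natDegree_eq_zero.1 h
  have h1 : p = equivMvPolynomial K (C f) := by
    rw [hf, AlgEquiv.apply_symm_apply]
  have h2 : equivMvPolynomial K (C f) = sub 0 f := by
    simp only [equivMvPolynomial, sub]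
    exact aevalAeval_C _ _ _
  rw [h1, h2, sub]
  exact aeval_mem_adjoin_singleton K _

lemma swap_symm_natDegree
    (hy : p ∉ Algebra.adjoin K {(MvPolynomial.X 1 : MvPolynomial (Fin 2) K)}) :
    (swap ((equivMvPolynomial K).symm p)).natDegree ≠ 0 := by
  intro h
  apply hy
  obtain ⟨f, hf⟩ := natDegree_eq_zero.1 h
  have h1 : p = equivMvPolynomial K (swap (C f)) := by
    rw [hf, swap_swap_apply, AlgEquiv.apply_symm_apply]
  have h2 : equivMvPolynomial K (swap (C f)) = sub 1 f := by
    have : equivMvPolynomial K (swap (C f)) =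
        aevalAeval (MvPolynomial.X 0) (MvPolynomial.X 1) (swap (C f)) := rfl
    rw [this, aevalAeval_swap, aevalAeval_C, sub]
  rw [h1, h2, sub]
  exact aeval_mem_adjoin_singleton K _

end Pool.Agent.L7h93.FO
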