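import Pool.Agent.L7h93.FO.Val

set_option autoImplicit false

namespace Pool.Agent.L7h93.FO

open Polynomial Polynomial.Bivariate

variable {K L : Type*} [Field K] [Field L] [Algebra K L]

/-- The fibre over `x = s` is as large as possible: `deg_y p` distinct points, all finite. -/
def Good (P : K[X][Y]) (s : K) : Prop :=
  (P.map (evalRingHom s)).natDegree = P.natDegree ∧ Squarefree (P.map (evalRingHom s))

lemma Good.lead {P : K[X][Y]} {s : K} (h : Good P s) : P.leadingCoeff.eval s ≠ 0 := by
  have h1 : (P.map (evalRingHom s)) ≠ 0 := h.2.ne_zero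
  have h2 := leadingCoeff_ne_zero.2 h1
  rw [leadingCoeff, h.1, coeff_map] at h2
  simpa using h2

lemma map_dvd_rootPoly [IsAlgClosed K] {P : K[X][Y]} {s : K} (h : Good P s) {B : Finset K}
    (hB : ∀ t : K, P.evalEval s t = 0 → t ∈ B) : P.map (evalRingHom s) ∣ rootPoly B := by
  classical
  set f := P.map (evalRingHom s) with hf
  have hf0 : f ≠ 0 := h.2.ne_zero
  have hsplit : f.Splits := IsAlgClosed.splits f
  have hnd : f.roots.Nodup := nodup_roots ((PerfectField.separable_iff_squarefree).2 h.2)
  have e : f = C f.leadingCoeff * ∏ t ∈ f.roots.toFinset, (X - C t) := by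
    conv_lhs => rw [hsplit.eq_prod_roots]
    congr 1
    rw [Finset.prod, Multiset.toFinset_val, hnd.dedup]
  rw [e]
  have hu : IsUnit (C f.leadingCoeff) := isUnit_C.2 (isUnit_iff_ne_zero.2 (leadingCoeff_ne_zero.2 hf0))
  rw [hu.mul_left_dvd]
  apply Finset.prod_dvd_prod_of_subset
  intro t ht
  rw [Multiset.mem_toFinset, mem_roots hf0, IsRoot.def, hf, map_evalRingHom_eval] at ht
  exact hB t ht

variable (V : ValuationSubring L) (hV : ∀ c : K, algebraMap K L c ∈ V)

include hV

/-- evaluating the first variable at two different places -/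
lemma val_sub_le {x y : L} (hx : x ∈ V) (hy : y ∈ V) (s : K) (P : K[X][Y])
    (h0 : aevalAeval x y P = 0) :
    V.valuation (aeval y (P.map (evalRingHom s))) ≤ V.valuation (x - algebraMap K L s) := by
  have key : ∀ Q : K[X][Y], ∃ r ∈ V, aevalAeval x y Q - aeval y (Q.map (evalRingHom s)) =
      (x - algebraMap K L s) * r := by
    intro Q
    induction Q using Polynomial.induction_on' with
    | add f g hf hg =>
      obtain ⟨r, hr, er⟩ := hf
      obtain ⟨r', hr', er'⟩ := hg
      refine ⟨r + r', add_mem hr hr', ?_⟩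
      rw [Polynomial.map_add, map_add, map_add, mul_add, ← er, ← er']
      ring
    | monomial n f =>
      -- f(x) - f(s) is divisible by x - s
      have h1 : ∃ r ∈ V, aeval x f - algebraMap K L (f.eval s) = (x - algebraMap K L s) * r := by
        obtain ⟨g, hg⟩ := X_sub_C_dvd_sub_C_eval (a := s) (p := f)
        refine ⟨aeval x g, ?_, ?_⟩
        · rw [← V.valuation_le_one_iff]; exact val_aeval_le V hV hx g
        · have := congrArg (aeval x) hg
          simpa using this
      obtain ⟨r, hr, er⟩ := h1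
      refine ⟨r * y ^ n, mul_mem hr (pow_mem hy n), ?_⟩
      have e1 : aevalAeval x y (monomial n f : K[X][Y]) = aeval x f * y ^ n := by
        rw [← C_mul_X_pow_eq_monomial]
        rw [map_mul, map_pow, aevalAeval_C, aevalAeval_Y]
      rw [e1]
      rw [map_monomial, coe_evalRingHom, aeval_monomial, ← mul_assoc, ← er, sub_mul]
  obtain ⟨r, hr, er⟩ := key P
  rw [h0, zero_sub, neg_eq_iff_eq_neg] at er
  rw [er, Valuation.map_neg, map_mul]
  exact mul_le_of_le_one_right' ((V.valuation_le_one_iff _).2 hr)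

lemma val_fin_le [IsAlgClosed K] {x y : L} (hx : x ∈ V) (hy : y ∈ V) {P : K[X][Y]}
    (h0 : aevalAeval x y P = 0) {A B : Finset K} (hA : ∀ s ∈ A, Good P s)
    (hAB : ∀ s ∈ A, ∀ t : K, P.evalEval s t = 0 → t ∈ B) :
    V.valuation (aeval y (rootPoly B)) ≤ V.valuation (aeval x (rootPoly A)) := by
  rcases val_root_of_mem V hV hx A with ⟨s, hs, e⟩ | e
  · rw [e]
    exact (val_aeval_dvd V hV hy (map_dvd_rootPoly (hA s hs) (hAB s hs))).trans
      (val_sub_le V hV hx hy s P h0)
  · rw [e]
    exact val_aeval_le V hV hy _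

/-- if `x` has a pole then `y` is not congruent to `t` with `Good (swap P) t` -/
lemma val_pole {x y : L} (hx : x ∉ V) (hy : y ∈ V) {Q : K[X][Y]}
    (h0 : aevalAeval y x Q = 0) {t : K} (ht : Q.leadingCoeff.eval t ≠ 0) :
    ¬ V.valuation (y - algebraMap K L t) < 1 := by
  intro hlt
  have hx1 : 1 < V.valuation x := by
    rw [← not_le, V.valuation_le_one_iff]; exact hx
  have hx0 : x ≠ 0 := by rintro rfl; simp at hx1
  set m := Q.natDegree with hm
  -- expansion
  have e1 : aevalAeval y x Q = ∑ i ∈ Finset.range (m + 1), aeval y (Q.coeff i) * x ^ i := by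
    conv_lhs => rw [Q.as_sum_range_C_mul_X_pow]
    rw [map_sum]
    refine Finset.sum_congr rfl fun i _ => ?_
    rw [map_mul, map_pow, aevalAeval_C, aevalAeval_Y]
  rw [h0, Finset.sum_range_succ] at e1
  have e2 : aeval y Q.leadingCoeff = - ∑ i ∈ Finset.range m, aeval y (Q.coeff i) * (x ^ (m - i))⁻¹ := by
    rw [leadingCoeff, ← hm]
    have hxm : x ^ m ≠ 0 := pow_ne_zero _ hx0
    have e3 : aeval y (Q.coeff m) * x ^ m = - ∑ i ∈ Finset.range m, aeval y (Q.coeff i) * x ^ i :=
      (neg_eq_of_add_eq_zero_right e1.symm).symm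
    apply mul_right_cancel₀ hxm
    rw [e3, neg_mul, Finset.sum_mul]
    congr 1
    refine Finset.sum_congr rfl fun i hi => ?_
    have hi' : i ≤ m := (Finset.mem_range.1 hi).le
    have : x ^ m = x ^ (m - i) * x ^ i := by rw [← pow_add, Nat.sub_add_cancel hi']
    rw [this]
    field_simp
  have h1 : V.valuation (aeval y Q.leadingCoeff) < 1 := by
    rw [e2, Valuation.map_neg]
    apply Valuation.map_sum_lt _ one_ne_zero
    intro i hi
    rw [map_mul, map_inv₀, map_pow]
    have h2 := val_aeval_le V hV hy (Q.coeff i)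
    have h3 : (V.valuation x ^ (m - i))⁻¹ < 1 := by
      apply inv_lt_one_of_one_lt₀
      exact one_lt_pow' hx1 (by have := Finset.mem_range.1 hi; omega)
    calc _ ≤ 1 * (V.valuation x ^ (m - i))⁻¹ := by gcongr
      _ < 1 := by rwa [one_mul]
  -- congruence
  obtain ⟨g, hg⟩ := X_sub_C_dvd_sub_C_eval (a := t) (p := Q.leadingCoeff)
  have e4 : aeval y Q.leadingCoeff - algebraMap K L (Q.leadingCoeff.eval t) =
      (y - algebraMap K L t) * aeval y g := by
    have := congrArg (aeval y) hg
    simpa using this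
  have h5 : V.valuation (algebraMap K L (Q.leadingCoeff.eval t)) < 1 := by
    have e5 : algebraMap K L (Q.leadingCoeff.eval t) =
        aeval y Q.leadingCoeff - (y - algebraMap K L t) * aeval y g := by
      rw [← e4]; ring
    rw [e5]
    apply Valuation.map_sub_lt _ h1
    rw [map_mul]
    calc _ ≤ V.valuation (y - algebraMap K L t) * 1 := by
          gcongr; exact val_aeval_le V hV hy g
      _ < 1 := by rwa [mul_one]
  rw [val_const V hV ht] at h5
  exact lt_irrefl _ h5

lemma val_root_pole {x y : L} (hx : x ∉ V) (hy : y ∈ V) {Q : K[X][Y]}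
    (h0 : aevalAeval y x Q = 0) {B : Finset K} (hB : ∀ t ∈ B, Good Q t) :
    V.valuation (aeval y (rootPoly B)) = 1 := by
  rcases val_root_of_mem V hV hy B with ⟨t, ht, e⟩ | e
  · rw [e]
    refine le_antisymm ((V.valuation_le_one_iff _).2 (sub_mem hy (hV t))) (not_lt.1 ?_)
    exact val_pole V hV hx hy h0 (hB t ht).lead
  · exact e

/-- The main comparison of valuations. -/
theorem val_main [IsAlgClosed K] {x y : L} {P : K[X][Y]} (h0 : aevalAeval x y P = 0)
    {A B : Finset K} (hA : ∀ s ∈ A, Good P s) (hB : ∀ t ∈ B, Good (swap P) t)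
    (hAB : ∀ s ∈ A, ∀ t : K, P.evalEval s t = 0 → t ∈ B)
    (hBA : ∀ t ∈ B, ∀ s : K, P.evalEval s t = 0 → s ∈ A) :
    V.valuation (aeval x (rootPoly A)) * (max 1 (V.valuation y)) ^ B.card =
      V.valuation (aeval y (rootPoly B)) * (max 1 (V.valuation x)) ^ A.card := by
  have h0' : aevalAeval y x (swap P) = 0 := by rw [Bivariate.aevalAeval_swap]; exact h0
  have hsw : ∀ s t : K, (swap P).evalEval t s = P.evalEval s t := by
    intro s t
    have := Bivariate.aevalAeval_swap (A := K) t s P
    rwa [coe_aevalAeval_eq_evalEval, coe_aevalAeval_eq_evalEval] at this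
  by_cases hx : x ∈ V <;> by_cases hy : y ∈ V
  · rw [max_eq_left ((V.valuation_le_one_iff _).2 hx), max_eq_left ((V.valuation_le_one_iff _).2 hy),
      one_pow, one_pow, mul_one, mul_one]
    apply le_antisymm
    · exact val_fin_le V hV hy hx h0' hB (fun t ht s hs => hBA t ht s (by rwa [hsw] at hs))
    · exact val_fin_le V hV hx hy h0 hA hAB
  · have hy1 : 1 ≤ V.valuation y := by
      rw [← V.valuation_le_one_iff, not_le] at hy; exact hy.le
    rw [max_eq_left ((V.valuation_le_one_iff _).2 hx), max_eq_right hy1, one_pow, mul_one,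
      val_root_of_not_mem V hV hy, val_root_pole V hV hy hx h0 hA, one_mul]
  · have hx1 : 1 ≤ V.valuation x := by
      rw [← V.valuation_le_one_iff, not_le] at hx; exact hx.le
    rw [max_eq_left ((V.valuation_le_one_iff _).2 hy), max_eq_right hx1, one_pow, mul_one,
      val_root_of_not_mem V hV hx, val_root_pole V hV hx hy h0' hB, one_mul]
  · have hy1 : 1 ≤ V.valuation y := by
      rw [← V.valuation_le_one_iff, not_le] at hy; exact hy.le
    have hx1 : 1 ≤ V.valuation x := by
      rw [← V.valuation_le_one_iff, not_le] at hx; exact hx.le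
    rw [max_eq_right hx1, max_eq_right hy1, val_root_of_not_mem V hV hx,
      val_root_of_not_mem V hV hy, mul_comm]

end Pool.Agent.L7h93.FO
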