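import Pool.Agent.L7h93.FO.Sepm

set_option autoImplicit false

namespace Pool.Agent.L7h93.FO

open Polynomial Polynomial.Bivariate

variable {K : Type*} [Field K]

lemma symm_sub_zero (f : K[X]) : (equivMvPolynomial K).symm (sub 0 f) = C f := by
  rw [AlgEquiv.symm_apply_eq]
  simp only [equivMvPolynomial, sub]
  exact (aevalAeval_C _ _ _).symm

lemma symm_sub_one (f : K[X]) : (equivMvPolynomial K).symm (sub 1 f) = swap (C f) := by
  rw [AlgEquiv.symm_apply_eq]
  have : equivMvPolynomial K (swap (C f)) =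
      aevalAeval (MvPolynomial.X 0) (MvPolynomial.X 1) (swap (C f)) := rfl
  rw [this, aevalAeval_swap, aevalAeval_C, sub]

variable {p : MvPolynomial (Fin 2) K}

lemma not_dvd_sub_zero (hx : p ∉ Algebra.adjoin K {(MvPolynomial.X 0 : MvPolynomial (Fin 2) K)})
    {f : K[X]} (hf : f ≠ 0) : ¬ p ∣ sub 0 f := by
  intro h
  have h1 := map_dvd (equivMvPolynomial K).symm h
  rw [symm_sub_zero] at h1
  have h2 := natDegree_le_of_dvd h1 (by simpa using hf)
  rw [natDegree_C] at h2
  exact symm_natDegree hx (Nat.le_zero.1 h2)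

lemma not_dvd_sub_one (hy : p ∉ Algebra.adjoin K {(MvPolynomial.X 1 : MvPolynomial (Fin 2) K)})
    {f : K[X]} (hf : f ≠ 0) : ¬ p ∣ sub 1 f := by
  intro h
  have h1 := map_dvd (equivMvPolynomial K).symm h
  rw [symm_sub_one] at h1
  have h3 := map_dvd swap h1
  rw [swap_swap_apply] at h3
  have h2 := natDegree_le_of_dvd h3 (by simpa using hf)
  rw [natDegree_C] at h2
  exact swap_symm_natDegree hy (Nat.le_zero.1 h2)

/-- Two good pairs with different first coordinates give a nonconstant separated multiple. -/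
theorem not_trivial [IsAlgClosed K] (hp : Irreducible p)
    (hx : p ∉ Algebra.adjoin K {(MvPolynomial.X 0 : MvPolynomial (Fin 2) K)})
    (hy : p ∉ Algebra.adjoin K {(MvPolynomial.X 1 : MvPolynomial (Fin 2) K)})
    {A₁ B₁ A₂ B₂ : Finset K} (h₁ : GoodPair ((equivMvPolynomial K).symm p) A₁ B₁)
    (h₂ : GoodPair ((equivMvPolynomial K).symm p) A₂ B₂)
    (hne : A₁.Nonempty) (hne₂ : A₂.Nonempty) (hdis : Disjoint A₁ A₂) : ¬ Trivial p := by
  intro htriv
  have hpp : Prime p := hp.prime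
  set P := (equivMvPolynomial K).symm p with hP
  haveI : (Ideal.span {p}).IsPrime := (Ideal.span_singleton_prime hp.ne_zero).2 hpp
  let R := MvPolynomial (Fin 2) K ⧸ Ideal.span {p}
  let L := FractionRing R
  let φ : MvPolynomial (Fin 2) K →ₐ[K] L :=
    (IsScalarTower.toAlgHom K R L).comp (Ideal.Quotient.mkₐ K (Ideal.span {p}))
  have hφ : ∀ q, φ q = 0 ↔ p ∣ q := by
    intro q
    have h1 : φ q = algebraMap R L (Ideal.Quotient.mk _ q) := rfl
    rw [h1, FaithfulSMul.algebraMap_eq_zero_iff, Ideal.Quotient.eq_zero_iff_mem,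
      Ideal.mem_span_singleton]
  have hφx : ∀ f : K[X], aeval (φ (MvPolynomial.X 0)) f = φ (sub 0 f) := by
    intro f; rw [sub, ← aeval_algHom_apply]
  have hφy : ∀ f : K[X], aeval (φ (MvPolynomial.X 1)) f = φ (sub 1 f) := by
    intro f; rw [sub, ← aeval_algHom_apply]
  have h0 : aevalAeval (φ (MvPolynomial.X 0)) (φ (MvPolynomial.X 1)) P = 0 := by
    have h1 : (aevalAeval (φ (MvPolynomial.X 0)) (φ (MvPolynomial.X 1)) : K[X][Y] →ₐ[K] L) =
        φ.comp (equivMvPolynomial K).toAlgHom := by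
      apply (aevalAevalEquiv K L).symm.injective
      rw [aevalAeval, Equiv.symm_apply_apply]
      simp [aevalAevalEquiv]
    rw [h1, AlgHom.comp_apply]
    have h2 : (equivMvPolynomial K).toAlgHom P = p := by
      rw [hP]; exact AlgEquiv.apply_symm_apply _ _
    rw [h2, hφ]
  obtain ⟨c, hc⟩ := relation h0
    (fun f hf => by rw [hφx, Ne, hφ]; exact not_dvd_sub_zero hx hf)
    (fun f hf => by rw [hφy, Ne, hφ]; exact not_dvd_sub_one hy hf) h₁ h₂
  set N₁ := A₁.card * P.natDegree with hN₁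
  set N₂ := A₂.card * P.natDegree with hN₂
  have hn0 : P.natDegree ≠ 0 := symm_natDegree hx
  have hN₂0 : N₂ ≠ 0 := mul_ne_zero (Finset.card_ne_zero.2 hne₂) hn0
  -- the multiple of `p`
  set N := sub 0 (rootPoly A₁) ^ N₂ * sub 1 (rootPoly B₂) ^ N₁ -
    MvPolynomial.C c * (sub 0 (rootPoly A₂) ^ N₁ * sub 1 (rootPoly B₁) ^ N₂) with hN
  have hpN : p ∣ N := by
    rw [← hφ, hN, map_sub, map_mul, map_mul, map_mul, map_pow, map_pow, map_pow, map_pow,
      ← hφx, ← hφx, ← hφy, ← hφy, hc]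
    have : φ (MvPolynomial.C c) = algebraMap K L c := φ.commutes c
    rw [this, sub_self]
  set D := sub 0 (rootPoly A₂) ^ N₁ * sub 1 (rootPoly B₂) ^ N₁ with hD
  have hpD : ¬ p ∣ D := by
    intro h
    rcases hpp.dvd_or_dvd h with h | h
    · exact not_dvd_sub_zero hx (rootPoly_monic A₂).ne_zero (hpp.dvd_of_dvd_pow h)
    · exact not_dvd_sub_one hy (rootPoly_monic B₂).ne_zero (hpp.dvd_of_dvd_pow h)
  set f : RatFunc K := algebraMap K[X] (RatFunc K) (rootPoly A₁ ^ N₂) /
    algebraMap K[X] (RatFunc K) (rootPoly A₂ ^ N₁) with hf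
  set g : RatFunc K := algebraMap K[X] (RatFunc K) (C c * rootPoly B₁ ^ N₂) /
    algebraMap K[X] (RatFunc K) (rootPoly B₂ ^ N₁) with hg
  have hA20 : rootPoly A₂ ^ N₁ ≠ 0 := pow_ne_zero _ (rootPoly_monic A₂).ne_zero
  have hB20 : rootPoly B₂ ^ N₁ ≠ 0 := pow_ne_zero _ (rootPoly_monic B₂).ne_zero
  have hmem : (f, g) ∈ separatedMultiples p := by
    have h1 : inVar 0 f - inVar 1 g = algebraMap _ (Kxy K) N / algebraMap _ (Kxy K) D := by
      rw [hf, hg, inVar_div _ _ _ hA20, inVar_div _ _ _ hB20]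
      have e1 : algebraMap (MvPolynomial (Fin 2) K) (Kxy K) (sub 0 (rootPoly A₂ ^ N₁)) ≠ 0 := by
        rw [Ne, FaithfulSMul.algebraMap_eq_zero_iff]
        rwa [map_eq_zero_iff _ (sub_injective 0)]
      have e2 : algebraMap (MvPolynomial (Fin 2) K) (Kxy K) (sub 1 (rootPoly B₂ ^ N₁)) ≠ 0 := by
        rw [Ne, FaithfulSMul.algebraMap_eq_zero_iff]
        rwa [map_eq_zero_iff _ (sub_injective 1)]
      have e3 : sub 1 (C c : K[X]) = MvPolynomial.C c := by
        rw [sub, aeval_C]; rfl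
      rw [div_sub_div _ _ e1 e2, ← map_mul, ← map_mul, ← map_mul, ← map_sub, hN, hD]
      congr 2
      · simp only [map_pow, map_mul, e3]
        ring
      · simp only [map_pow]
    show inVar 0 f - inVar 1 g ∈ multiples p
    rw [h1]
    exact mem_multiples hpp hpN hpD
  obtain ⟨c', hc'⟩ := htriv _ hmem
  have hfc : f = RatFunc.C c' := congrArg Prod.fst hc'
  have hA2' : algebraMap K[X] (RatFunc K) (rootPoly A₂ ^ N₁) ≠ 0 := by
    rwa [Ne, FaithfulSMul.algebraMap_eq_zero_iff]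
  rw [hf, div_eq_iff hA2', ← RatFunc.algebraMap_C, ← map_mul] at hfc
  have hpoly := FaithfulSMul.algebraMap_injective K[X] (RatFunc K) hfc
  obtain ⟨s, hs⟩ := hne
  have hs2 : s ∉ A₂ := Finset.disjoint_left.1 hdis hs
  have hev := congrArg (Polynomial.eval s) hpoly
  rw [eval_pow, eval_mul, eval_C, eval_pow] at hev
  have hev1 : (rootPoly A₁).eval s = 0 := by
    rw [rootPoly, eval_prod]
    exact Finset.prod_eq_zero hs (by simp)
  have hev2 : (rootPoly A₂).eval s ≠ 0 := by
    rw [rootPoly, eval_prod, Finset.prod_ne_zero_iff]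
    intro t ht
    simp only [eval_sub, eval_X, eval_C]
    exact sub_ne_zero.2 (fun h => hs2 (h ▸ ht))
  rw [hev1, zero_pow hN₂0] at hev
  rcases mul_eq_zero.1 hev.symm with h | h
  · rw [h, C_0, zero_mul] at hpoly
    exact pow_ne_zero _ (rootPoly_monic A₁).ne_zero hpoly
  · exact pow_ne_zero _ hev2 h

end Pool.Agent.L7h93.FO
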