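import Mathlib

set_option autoImplicit false

namespace Pool.Agent.L7h93.FO

open Polynomial

section

variable {K L : Type*} [Field K] [Field L] [Algebra K L]

/-- the polynomial `∏ (T - s)`, `s ∈ A` -/
noncomputable def rootPoly (A : Finset K) : K[X] := ∏ s ∈ A, (X - C s)

lemma rootPoly_monic (A : Finset K) : (rootPoly A).Monic :=
  monic_prod_of_monic _ _ fun s _ => monic_X_sub_C s

lemma rootPoly_natDegree (A : Finset K) : (rootPoly A).natDegree = A.card := by
  unfold rootPoly
  rw [natDegree_prod_of_monic _ _ fun s _ => monic_X_sub_C s]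
  simp

lemma aeval_rootPoly (A : Finset K) (x : L) :
    aeval x (rootPoly A) = ∏ s ∈ A, (x - algebraMap K L s) := by
  simp [rootPoly, map_prod]

variable (V : ValuationSubring L) (hV : ∀ c : K, algebraMap K L c ∈ V)

include hV

lemma val_const {c : K} (hc : c ≠ 0) : V.valuation (algebraMap K L c) = 1 := by
  have h1 := (V.valuation_le_one_iff _).2 (hV c)
  have h2 := (V.valuation_le_one_iff _).2 (hV c⁻¹)
  rw [map_inv₀, map_inv₀] at h2
  have h3 : V.valuation (algebraMap K L c) ≠ 0 := by
    rw [Valuation.ne_zero_iff]; simpa using hc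
  refine le_antisymm h1 ?_
  rwa [inv_le_one₀ (zero_lt_iff.2 h3)] at h2

/-- if `x` is not in `V`, all `x - s` have the valuation of `x` -/
lemma val_sub_of_not_mem {x : L} (hx : x ∉ V) (s : K) :
    V.valuation (x - algebraMap K L s) = V.valuation x := by
  have h1 : 1 < V.valuation x := by
    rw [← not_le, V.valuation_le_one_iff]; exact hx
  have h2 := (V.valuation_le_one_iff _).2 (hV s)
  exact Valuation.map_sub_eq_of_lt_left _ (lt_of_le_of_lt h2 h1)

lemma val_root_of_not_mem {x : L} (hx : x ∉ V) (A : Finset K) :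
    V.valuation (aeval x (rootPoly A)) = V.valuation x ^ A.card := by
  rw [aeval_rootPoly, map_prod, Finset.prod_congr rfl (fun s _ => val_sub_of_not_mem V hV hx s),
    Finset.prod_const]

lemma val_sub_unique {x : L} {s t : K} (hst : s ≠ t) (hs : V.valuation (x - algebraMap K L s) < 1) :
    ¬ V.valuation (x - algebraMap K L t) < 1 := by
  intro ht
  have h := Valuation.map_sub_lt V.valuation ht hs
  have e : x - algebraMap K L t - (x - algebraMap K L s) = algebraMap K L (s - t) := by
    rw [map_sub]; ring
  rw [e, val_const V hV (sub_ne_zero.2 hst)] at h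
  exact lt_irrefl _ h

/-- for `x` in `V` the valuation of `∏ (x - s)` is that of one factor, or `1` -/
lemma val_root_of_mem {x : L} (hx : x ∈ V) (A : Finset K) :
    (∃ s ∈ A, V.valuation (aeval x (rootPoly A)) = V.valuation (x - algebraMap K L s)) ∨
      V.valuation (aeval x (rootPoly A)) = 1 := by
  classical
  have hle : ∀ t : K, V.valuation (x - algebraMap K L t) ≤ 1 := fun t =>
    (V.valuation_le_one_iff _).2 (sub_mem hx (hV t))
  by_cases h : ∃ s ∈ A, V.valuation (x - algebraMap K L s) < 1
  · obtain ⟨s, hs, hlt⟩ := h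
    left
    refine ⟨s, hs, ?_⟩
    rw [aeval_rootPoly, map_prod, ← Finset.mul_prod_erase _ _ hs, Finset.prod_eq_one, mul_one]
    intro t ht
    have hne := (Finset.mem_erase.1 ht).1
    exact le_antisymm (hle t) (not_lt.1 (val_sub_unique V hV hne.symm hlt))
  · right
    push Not at h
    rw [aeval_rootPoly, map_prod, Finset.prod_eq_one]
    intro t ht
    exact le_antisymm (hle t) (h t ht)

lemma val_aeval_le {x : L} (hx : x ∈ V) (f : K[X]) : V.valuation (aeval x f) ≤ 1 := by
  rw [V.valuation_le_one_iff]
  rw [aeval_eq_sum_range]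
  refine sum_mem fun i _ => ?_
  rw [Algebra.smul_def]
  exact mul_mem (hV _) (pow_mem hx _)

omit hV in
lemma val_aeval_dvd (hV : ∀ c : K, algebraMap K L c ∈ V) {x : L} (hx : x ∈ V) {f g : K[X]}
    (h : f ∣ g) : V.valuation (aeval x g) ≤ V.valuation (aeval x f) := by
  obtain ⟨r, rfl⟩ := h
  rw [map_mul, map_mul]
  exact mul_le_of_le_one_right' (val_aeval_le V hV hx r)

end

end Pool.Agent.L7h93.FO
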